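import Pool.Agent.N869.GK.StmN

/-! GK/N-TWU (helper690 for helper869): twists of one curve by positive numbers. -/

set_option autoImplicit false

namespace Pool.Agent.N690.GK

open Pool.Agent.N869.GK.N

lemma sq_of_mul_sq {n x : ℤ} (hx : x ≠ 0) (h : IsSquare (n * x ^ 2)) : IsSquare n := by
  obtain ⟨y, hy⟩ := h
  have h1 : x ^ 2 ∣ y ^ 2 := ⟨n, by rw [sq y, ← hy]; ring⟩
  obtain ⟨z, rfl⟩ := (Int.pow_dvd_pow_iff two_ne_zero).1 h1
  refine ⟨z, ?_⟩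
  have h2 : x ^ 2 ≠ 0 := pow_ne_zero 2 hx
  apply mul_right_cancel₀ h2
  rw [hy]
  ring

lemma not_neg_sq {m x : ℤ} (hm : 0 < m) (hx : x ≠ 0) (h : IsSquare (-(m * x ^ 2))) : False := by
  have h1 := h.nonneg
  have h2 : 0 < x ^ 2 := by positivity
  have h3 : 0 < m * x ^ 2 := mul_pos hm h2
  linarith

lemma cases6 : ∀ x y z : Fin 3, x ≠ y → x ≠ z → y ≠ z →
    (x = 0 ∧ y = 1 ∧ z = 2) ∨ (x = 0 ∧ y = 2 ∧ z = 1) ∨ (x = 1 ∧ y = 0 ∧ z = 2) ∨
    (x = 2 ∧ y = 1 ∧ z = 0) ∨ (x = 1 ∧ y = 2 ∧ z = 0) ∨ (x = 2 ∧ y = 0 ∧ z = 1) := by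
  decide

/-- GK/N-TWU -/
theorem t_TWU : S_TWU := by
  intro e c c' h01 h02 h12 hc hc' hsq σ H
  have hcc : 0 < c * c' := mul_pos hc hc'
  have d01 : e 0 - e 1 ≠ 0 := sub_ne_zero.2 h01
  have d02 : e 0 - e 2 ≠ 0 := sub_ne_zero.2 h02
  have d12 : e 1 - e 2 ≠ 0 := sub_ne_zero.2 h12
  have H01 : IsSquare ((c * e 0 - c * e 1) * (c' * e (σ 0) - c' * e (σ 1))) :=
    H 0 1 (by decide)
  have H02 : IsSquare ((c * e 0 - c * e 2) * (c' * e (σ 0) - c' * e (σ 2))) :=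
    H 0 2 (by decide)
  have H12 : IsSquare ((c * e 1 - c * e 2) * (c' * e (σ 1) - c' * e (σ 2))) :=
    H 1 2 (by decide)
  have hX : c * c' * ((e 0 - e 1) * (e 0 - e 2) * (e 1 - e 2)) ≠ 0 :=
    mul_ne_zero hcc.ne' (mul_ne_zero (mul_ne_zero d01 d02) d12)
  rcases cases6 (σ 0) (σ 1) (σ 2) (fun h => absurd (σ.injective h) (by decide))
    (fun h => absurd (σ.injective h) (by decide))
    (fun h => absurd (σ.injective h) (by decide)) with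
    ⟨e0, e1, e2⟩ | ⟨e0, e1, e2⟩ | ⟨e0, e1, e2⟩ | ⟨e0, e1, e2⟩ | ⟨e0, e1, e2⟩ | ⟨e0, e1, e2⟩ <;>
    rw [e0, e1] at H01 <;> rw [e0, e2] at H02 <;> rw [e1, e2] at H12
  · refine hsq (sq_of_mul_sq d01 ?_)
    have h : c * c' * (e 0 - e 1) ^ 2 = (c * e 0 - c * e 1) * (c' * e 0 - c' * e 1) := by ring
    rw [h]
    exact H01
  · refine not_neg_sq hcc d12 ?_
    have h : -(c * c' * (e 1 - e 2) ^ 2) = (c * e 1 - c * e 2) * (c' * e 2 - c' * e 1) := by ring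
    rw [h]
    exact H12
  · refine not_neg_sq hcc d01 ?_
    have h : -(c * c' * (e 0 - e 1) ^ 2) = (c * e 0 - c * e 1) * (c' * e 1 - c' * e 0) := by ring
    rw [h]
    exact H01
  · refine not_neg_sq hcc d02 ?_
    have h : -(c * c' * (e 0 - e 2) ^ 2) = (c * e 0 - c * e 2) * (c' * e 2 - c' * e 0) := by ring
    rw [h]
    exact H02
  · refine hsq (sq_of_mul_sq hX ?_)
    have h := (H01.mul H02).mul H12
    have h' : c * c' * (c * c' * ((e 0 - e 1) * (e 0 - e 2) * (e 1 - e 2))) ^ 2 =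
        (c * e 0 - c * e 1) * (c' * e 1 - c' * e 2) *
        ((c * e 0 - c * e 2) * (c' * e 1 - c' * e 0)) *
        ((c * e 1 - c * e 2) * (c' * e 2 - c' * e 0)) := by ring
    rw [h']
    exact h
  · refine hsq (sq_of_mul_sq hX ?_)
    have h := (H01.mul H02).mul H12
    have h' : c * c' * (c * c' * ((e 0 - e 1) * (e 0 - e 2) * (e 1 - e 2))) ^ 2 =
        (c * e 0 - c * e 1) * (c' * e 2 - c' * e 0) *
        ((c * e 0 - c * e 2) * (c' * e 2 - c' * e 1)) *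
        ((c * e 1 - c * e 2) * (c' * e 0 - c' * e 1)) := by ring
    rw [h']
    exact h

end Pool.Agent.N690.GK
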